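import Mathlib
import Pool.Agent.H2.E8a

namespace Pool.Agent.Results.MP_58c1a9_gt.E8

open Finset Pool.Agent.H2.E8a

/-- `H^1(T^8) = ℤ^8`. -/
abbrev V := Fin 8 → ℤ

/-- The generator `x_1 ∧ ⋯ ∧ x_8` of `H^8(T^8)`, dual to the fundamental class. -/
noncomputable def top : ExteriorAlgebra ℤ V := ExteriorAlgebra.ιMulti ℤ 8 (Pi.basisFun ℤ (Fin 8))

/-- Index set with `8 + 2 * 10` elements. -/
abbrev J := Fin 8 ⊕ Fin 2 × Fin 10

/-- The Gram matrix of the hyperbolic form. -/
def Hyp : Matrix (Fin 2) (Fin 2) ℤ := !![0, 1; 1, 0]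

/-- The Gram matrix of `10 H`. -/
def Hyp10 : Matrix (Fin 2 × Fin 10) (Fin 2 × Fin 10) ℤ := Matrix.blockDiagonal fun _ => Hyp

/-- The Gram matrix of `E_8 ⊕ 10 H`. -/
def E8H : Matrix J J ℤ := Matrix.fromBlocks CartanMatrix.E₈ 0 0 Hyp10

theorem sg_cons (x : ℕ) (l : List ℕ) : sg (x :: l) = (l.map (c x)).prod * sg l := by
  simp only [sg]; split_ifs with h
  · rw [h, zero_mul]
  · rfl

theorem sg_ofFn : ∀ (n : ℕ) (w : Fin n → ℕ),
    sg (List.ofFn w) = ∏ i, ∏ j ∈ Ioi i, c (w i) (w j)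
  | 0, w => by simp [sg]
  | n + 1, w => by
    rw [List.ofFn_succ, sg_cons, sg_ofFn n, Fin.prod_univ_succ, Fin.prod_Ioi_zero, List.map_ofFn,
      List.prod_ofFn]
    congr 1
    refine Finset.prod_congr rfl fun i _ => ?_
    rw [Fin.prod_Ioi_succ]

theorem mono (w : Fin 8 → Fin 8) :
    ExteriorAlgebra.ιMulti ℤ 8 (Pi.basisFun ℤ (Fin 8) ∘ w) =
      sg (List.ofFn fun i => (w i : ℕ)) • top := by
  rw [sg_ofFn]
  by_cases hw : Function.Injective w
  · let σ : Equiv.Perm (Fin 8) := Equiv.ofBijective w hw.bijective_of_finite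
    have hσ : w = σ := rfl
    rw [hσ, AlternatingMap.map_perm, Equiv.Perm.sign_eq_prod_prod_Ioi, Units.smul_def, top]
    congr 1
    push_cast
    refine Finset.prod_congr rfl fun i _ => Finset.prod_congr rfl fun j hj => ?_
    have hne : σ i ≠ σ j := fun h => (Finset.mem_Ioi.1 hj).ne (σ.injective h)
    have hne' : (σ i : ℕ) ≠ σ j := fun h => hne (Fin.ext h)
    simp only [c, Fin.val_fin_lt, hne', if_false]
    split_ifs <;> simp
  · rw [AlternatingMap.map_eq_zero_of_not_injective _ _ fun h => hw (Function.Injective.of_comp h)]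
    simp only [Function.Injective, not_forall] at hw
    obtain ⟨i, j, hij, hne⟩ := hw
    have : ∏ i, ∏ j ∈ Ioi i, c (w i) (w j) = 0 := by
      rcases lt_or_gt_of_ne hne with h | h
      · exact Finset.prod_eq_zero (Finset.mem_univ i)
          (Finset.prod_eq_zero (Finset.mem_Ioi.2 h) (by simp [c, hij]))
      · exact Finset.prod_eq_zero (Finset.mem_univ j)
          (Finset.prod_eq_zero (Finset.mem_Ioi.2 h) (by simp [c, hij]))
    rw [this, zero_smul]

noncomputable def u (a : Fin 28) : ⋀[ℤ]^2 V :=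
  exteriorPower.ιMulti ℤ 2 (Pi.basisFun ℤ (Fin 8) ∘ pair a)

noncomputable def v (t : Fin 70) : ⋀[ℤ]^4 V :=
  exteriorPower.ιMulti ℤ 4 (Pi.basisFun ℤ (Fin 8) ∘ quad t)

theorem uuv (a b : Fin 28) (t : Fin 70) :
    (u a : ExteriorAlgebra ℤ V) * u b * v t =
      sg (pairN.getD a [] ++ pairN.getD b [] ++ quadN.getD t []) • top := by
  rw [← h5, ← h5, ← h6, ← List.ofFn_fin_append, ← List.ofFn_fin_append]
  have := mono (Fin.append (Fin.append (pair a) (pair b)) (quad t))
  simp only [u, v, exteriorPower.ιMulti_apply_coe, ExteriorAlgebra.ιMulti_mul_ιMulti]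
  convert this using 3
  · funext i; fin_cases i <;> rfl
  · congr 1; funext i; fin_cases i <;> rfl

noncomputable def om : ⋀[ℤ]^4 V := ∑ t : Fin 70, WL.getD t 0 • v t

theorem uuo (a b : Fin 28) : (u a : ExteriorAlgebra ℤ V) * u b * om = ent GrL a b • top := by
  rw [← h1, om, Finset.sum_smul]
  push_cast
  rw [Finset.mul_sum]
  refine Finset.sum_congr rfl fun t _ => ?_
  rw [mul_smul_comm, uuv, smul_smul]
  split_ifs with h
  · rw [h, zero_mul]
  · rfl

noncomputable def bb (i : I) : ⋀[ℤ]^2 V := ∑ a : Fin 28, ent PL a (idx i) • u a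

theorem bbo (i j : I) : (bb i : ExteriorAlgebra ℤ V) * bb j * om = E8H i j • top := by
  have : E8H i j = M i j := rfl
  rw [this, ← h3, Finset.sum_smul, bb, bb]
  push_cast
  rw [Finset.sum_mul, Finset.sum_mul]
  refine Finset.sum_congr rfl fun a _ => ?_
  rw [← h2, smul_mul_assoc, smul_mul_assoc, mul_smul, Finset.mul_sum, Finset.sum_mul,
    Finset.sum_smul]
  refine congrArg (fun z => ent PL a (idx i) • z) (Finset.sum_congr rfl fun b _ => ?_)
  rw [mul_smul_comm, smul_mul_assoc, uuo, smul_smul, mul_comm (ent PL b (idx j))]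

theorem u_mem (a : Fin 28) : u a ∈ Submodule.span ℤ (Set.range bb) := by
  have : u a = ∑ i : I, ent QL (idx i) a • bb i := by
    simp only [bb, Finset.smul_sum, smul_smul]
    rw [Finset.sum_comm]
    simp only [← Finset.sum_smul, h4]
    simp
  rw [this]
  exact Submodule.sum_mem _ fun i _ => Submodule.smul_mem _ _ (Submodule.subset_span ⟨i, rfl⟩)

theorem span_bb : ⊤ ≤ Submodule.span ℤ (Set.range bb) := by
  rw [← exteriorPower.ιMulti_family_span_of_span ℤ (n := 2) (Pi.basisFun ℤ (Fin 8)).span_eq,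
    Submodule.span_le]
  rintro _ ⟨s, rfl⟩
  obtain ⟨a, h0, h1⟩ := h7 _ _
    ((Set.powersetCard.ofFinEmbEquiv.symm s).strictMono (show (0 : Fin 2) < 1 by decide))
  have : pair a = Set.powersetCard.ofFinEmbEquiv.symm s := by
    funext i; fin_cases i
    · exact h0
    · exact h1
  have h := u_mem a
  rw [u, this] at h
  exact h

section
variable (R : Type) [CommRing R] (N : Type) [AddCommGroup N] [Module R N]

/-- The degree `k` part of the exterior algebra. -/
abbrev H (k : ℕ) : Submodule R (ExteriorAlgebra R N) := ⋀[R]^k N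

/-- The triple product `x ∪ y ∪ ω`. -/
noncomputable def cup (x y : H R N 2) (ω : H R N 4) : ExteriorAlgebra R N := x.1 * y.1 * ω.1

/-- The product `e 0 ∧ ⋯ ∧ e 7`. -/
noncomputable def wedge (e : Fin 8 → N) : ExteriorAlgebra R N := ExteriorAlgebra.ιMulti R 8 e

/-- There are `ω` of degree 4 and a basis `b` of the degree 2 part with
`b i ∪ b j ∪ ω = G i j • (e 0 ∧ ⋯ ∧ e 7)`, i.e. `B_ω` has Gram matrix `G`. -/
def HasGram (e : Fin 8 → N) (G : Matrix J J R) : Prop :=
  ∃ (ω : H R N 4) (b : Module.Basis J R (H R N 2)), ∀ i j,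
    cup R N (b i) (b j) ω = G i j • wedge R N e

end

/-- The standard basis `x_1, …, x_8` of `ℤ^8`. -/
def xs (k : Fin 8) : V := fun l => if l = k then 1 else 0

/-- There is `ω ∈ H^4(ℤ^8)` and a basis of `H^2(ℤ^8)` in which `B_ω` has the Gram matrix of
`E_8 ⊕ 10 H`. -/
theorem result : HasGram ℤ V xs E8H := by
  have hx : xs = Pi.basisFun ℤ (Fin 8) := by
    funext k l; simp [xs, Pi.single_apply]
  rw [hx]
  refine ⟨om, basisOfTopLeSpanOfCardEqFinrank bb span_bb ?_, fun i j => ?_⟩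
  · rw [exteriorPower.finrank_eq]; simp [Nat.choose]
  · rw [coe_basisOfTopLeSpanOfCardEqFinrank]; exact bbo i j

end Pool.Agent.Results.MP_58c1a9_gt.E8
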